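import Pool.Agent.KS6_76.SSPN.VN
import Pool.Graph.R_seed8.Y548.SSP.Virt

/-!
# Metabelian subgroups of abelian-by-nilpotent groups and hardness of subset sum
-/

namespace Pool.Agent.KS6_76.SSPN

open Pool.Agent.H648R3.SSP
open scoped commutatorElement

universe u

variable {M : Type u} [Group M]

theorem it_map {N : Type*} [Group N] (φ : N →* M) (x y : N) (i : ℕ) :
    φ (it x y i) = it (φ x) (φ y) i := by
  induction i with
  | zero => rfl
  | succ i ih =>
    change φ (x * it x y i * x⁻¹ * (it x y i)⁻¹) = φ x * it (φ x) (φ y) i * (φ x)⁻¹ * _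
    rw [map_mul, map_mul, map_mul, map_inv, map_inv, ih]

/-- A normal abelian subgroup has an additive model. -/
theorem exists_model (A : Subgroup M) [A.Normal] (hA : ∀ a ∈ A, ∀ b ∈ A, a * b = b * a) :
    ∃ (V : Type u) (_ : AddCommGroup V), Nonempty (Model A V) := by
  let _ : CommGroup A :=
    { (inferInstance : Group A) with
      mul_comm := fun a b => Subtype.ext (hA a.1 a.2 b.1 b.2) }
  refine ⟨Additive A, inferInstance, ⟨?_⟩⟩
  refine
    { ρ :=
        { toFun := fun x =>
            (MonoidHom.toAdditive ((MulAut.conjNormal x : A ≃* A).toMonoidHom)).toIntLinearMap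
          map_one' := ?_
          map_mul' := ?_ }
      κ := fun v => ((Additive.toMul v : A) : M)
      add := ?_
      inj := ?_
      conj := ?_
      mem := ?_ }
  · apply LinearMap.ext
    intro v
    apply Additive.toMul.injective
    apply Subtype.ext
    change (((MulAut.conjNormal (1 : M) : A ≃* A) (Additive.toMul v) : A) : M) =
      ((Additive.toMul v : A) : M)
    rw [MulAut.conjNormal_apply]
    simp
  · intro x y
    apply LinearMap.ext
    intro v
    apply Additive.toMul.injective
    apply Subtype.ext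
    change (((MulAut.conjNormal (x * y) : A ≃* A) (Additive.toMul v) : A) : M) =
      (((MulAut.conjNormal x : A ≃* A) ((MulAut.conjNormal y : A ≃* A) (Additive.toMul v)) : A) : M)
    rw [MulAut.conjNormal_apply, MulAut.conjNormal_apply, MulAut.conjNormal_apply]
    group
  · intro u v
    rfl
  · intro u v h
    exact Additive.toMul.injective (Subtype.ext h)
  · intro x v
    change (((MulAut.conjNormal x : A ≃* A) (Additive.toMul v) : A) : M) = _
    rw [MulAut.conjNormal_apply]
  · intro a
    constructor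
    · intro ha
      exact ⟨Additive.ofMul ⟨a, ha⟩, rfl⟩
    · rintro ⟨v, rfl⟩
      exact (Additive.toMul v : A).2

/-- In a virtually nilpotent group, iterated commutators with powers vanish. -/
theorem it_of_virt {H : Type*} [Group H] (h : ∃ K : Subgroup H, K.FiniteIndex ∧
    Group.IsNilpotent K) (x y : H) : ∃ n : ℕ, 0 < n ∧ ∃ m : ℕ, it (x ^ n) y m = 1 := by
  obtain ⟨K, hK, hn⟩ := h
  obtain ⟨d, hd⟩ := (Subgroup.isNilpotent_iff_lowerCentralSeries K).1 hn
  set N := K.normalCore with hN
  have hNfin : N.FiniteIndex := inferInstance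
  have hdN : N.lowerCentralSeries d = ⊥ := by
    rw [eq_bot_iff, ← hd]
    exact Subgroup.lowerCentralSeries_mono d (Subgroup.normalCore_le K)
  obtain ⟨n, hn0, -, hxn⟩ := Subgroup.exists_pow_mem_of_index_ne_zero hNfin.index_ne_zero x
  refine ⟨n, hn0, d + 1, ?_⟩
  have key : ∀ i, it (x ^ n) y (i + 1) ∈ N.lowerCentralSeries i := by
    intro i
    induction i with
    | zero =>
      change x ^ n * y * (x ^ n)⁻¹ * y⁻¹ ∈ N
      have e : x ^ n * y * (x ^ n)⁻¹ * y⁻¹ = x ^ n * (y * (x ^ n)⁻¹ * y⁻¹) := by group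
      rw [e]
      exact mul_mem hxn ((Subgroup.normalCore_normal K).conj_mem _ (inv_mem hxn) y)
    | succ i ih =>
      have e : it (x ^ n) y (i + 1 + 1) = ⁅x ^ n, it (x ^ n) y (i + 1)⁆ := by
        rw [commutatorElement_def]; rfl
      rw [e, Subgroup.lowerCentralSeries_succ, Subgroup.commutator_comm]
      exact Subgroup.commutator_mem_commutator hxn ih
  have := key d
  rw [hdN, Subgroup.mem_bot] at this
  exact this

/-- A finitely generated abelian-by-nilpotent group that is not virtually nilpotent contains a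
two-generator subgroup `⟨a, t⟩`, with `a` in the abelian normal subgroup, that is not virtually
nilpotent. -/
theorem exists_wild [Group.FG M] (A : Subgroup M) [A.Normal]
    (hA : ∀ a ∈ A, ∀ b ∈ A, a * b = b * a) (hQ : Group.IsNilpotent (M ⧸ A))
    (hnot : ¬ ∃ K : Subgroup M, K.FiniteIndex ∧ Group.IsNilpotent K) :
    ∃ a ∈ A, ∃ t : M, ¬ ∃ K : Subgroup (Subgroup.closure {a, t}),
      K.FiniteIndex ∧ Group.IsNilpotent K := by
  by_contra hcon
  push Not at hcon
  obtain ⟨V, hV, ⟨D⟩⟩ := exists_model A hA
  apply hnot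
  apply D.main hQ
  intro x a ha
  obtain ⟨K, hK, hKn⟩ := hcon a ha x
  have hxm : x ∈ Subgroup.closure {a, x} := Subgroup.subset_closure (by simp)
  have ham : a ∈ Subgroup.closure {a, x} := Subgroup.subset_closure (by simp)
  obtain ⟨n, hn, m, hm⟩ := it_of_virt ⟨K, hK, hKn⟩
    (⟨x, hxm⟩ : Subgroup.closure {a, x}) ⟨a, ham⟩
  refine ⟨n, hn, m, ?_⟩
  have h := congrArg (Subgroup.closure {a, x}).subtype hm
  rw [it_map, map_one, map_pow] at h
  exact h

theorem metab_pair (A : Subgroup M) [A.Normal] (hA : ∀ a ∈ A, ∀ b ∈ A, a * b = b * a)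
    {a : M} (ha : a ∈ A) (t : M) : Metab (Subgroup.closure {a, t}) := by
  have h1 : ∀ z ∈ A, t * z * t⁻¹ ∈ A := fun z hz => Subgroup.Normal.conj_mem inferInstance z hz t
  have h2 : ∀ z ∈ A, t⁻¹ * z * t ∈ A := fun z hz => by
    have := Subgroup.Normal.conj_mem (H := A) inferInstance z hz t⁻¹
    simpa using this
  have hle : Subgroup.closure {a, t} ≤ A ⊔ Subgroup.zpowers t := by
    rw [Subgroup.closure_le]
    intro x hx
    rcases hx with rfl | hx
    · exact Subgroup.mem_sup_left ha
    · rw [Set.mem_singleton_iff] at hx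
      rw [hx]
      exact Subgroup.mem_sup_right (Subgroup.mem_zpowers t)
  have hc : ∀ x y : Subgroup.closure {a, t}, (⁅(x : M), (y : M)⁆) ∈ A := by
    intro x y
    obtain ⟨u, hu, e, hx⟩ := mem_sup_zpowers h1 h2 (hle x.2)
    obtain ⟨v, hv, f, hy⟩ := mem_sup_zpowers h1 h2 (hle y.2)
    rw [← QuotientGroup.eq_one_iff, hx, hy, commutatorElement_def]
    have hu' : ((u : M) : M ⧸ A) = 1 := (QuotientGroup.eq_one_iff u).2 hu
    have hv' : ((v : M) : M ⧸ A) = 1 := (QuotientGroup.eq_one_iff v).2 hv
    simp only [QuotientGroup.mk_mul, QuotientGroup.mk_inv, QuotientGroup.mk_zpow, hu', hv',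
      one_mul]
    rw [← zpow_neg, ← zpow_neg, ← zpow_add, ← zpow_add, ← zpow_add]
    have : e + f + -e + -f = 0 := by ring
    rw [this, zpow_zero]
  have hsub : commutator (Subgroup.closure {a, t}) ≤ A.subgroupOf (Subgroup.closure {a, t}) := by
    rw [commutator_def, Subgroup.commutator_le]
    intro x _ y _
    rw [Subgroup.mem_subgroupOf]
    exact hc x y
  refine ⟨fun x hx y hy => Subtype.ext ?_⟩
  exact hA _ (Subgroup.mem_subgroupOf.1 (hsub hx)) _ (Subgroup.mem_subgroupOf.1 (hsub hy))

end Pool.Agent.KS6_76.SSPN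

namespace Pool.Agent.NPC.SSPN76

open Pool.Agent.NPC.SSP648 Pool.Agent.H648R3.SSP Pool.Agent.KS6_76.SSPN

variable {G : Type*} [Group G] {n : ℕ}

/-- Hardness for finitely generated virtually (abelian-by-nilpotent) groups. -/
theorem hard_main (g : Fin n → G) (hg : Subgroup.closure (Set.range g) = ⊤)
    (hv : ∃ M : Subgroup G, M.FiniteIndex ∧ ∃ (A : Subgroup M) (_ : A.Normal),
      (∀ a ∈ A, ∀ b ∈ A, a * b = b * a) ∧ Group.IsNilpotent (M ⧸ A))
    (hnot : ¬ ∃ H : Subgroup G, H.FiniteIndex ∧ Group.IsNilpotent H) :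
    NPHardP (SubsetSum g) := by
  obtain ⟨M, hM, A, hAn, hA, hQ⟩ := hv
  have hGfg : Group.FG G := Group.fg_iff.2 ⟨Set.range g, hg, Set.finite_range g⟩
  have hMfg : Group.FG M := Subgroup.fg_of_index_ne_zero M
  have hnotM : ¬ ∃ K : Subgroup M, K.FiniteIndex ∧ Group.IsNilpotent K := by
    rintro ⟨K, hK, hnil⟩
    refine hnot ⟨K.map M.subtype, ?_, ?_⟩
    · refine ⟨?_⟩
      rw [Subgroup.index_map_subtype]
      exact mul_ne_zero hK.index_ne_zero hM.index_ne_zero
    · have e : K ≃* K.map M.subtype := K.equivMapOfInjective M.subtype M.subtype_injective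
      exact Group.nilpotent_of_mulEquiv e
  obtain ⟨a, ha, t, hw⟩ := exists_wild A hA hQ hnotM
  have hmet : Metab (Subgroup.closure {a, t}) := metab_pair A hA ha t
  have hfg : Group.FG (Subgroup.closure {a, t}) := by
    rw [Group.fg_iff_subgroup_fg, Subgroup.fg_iff]
    exact ⟨{a, t}, rfl, Set.toFinite _⟩
  exact Y548.hard_metab (H := Subgroup.closure {a, t}) hw g
    (M.subtype.comp (Subgroup.closure {a, t}).subtype)
    (M.subtype_injective.comp (Subgroup.subtype_injective _))
    (fun x => by rw [hg]; exact Subgroup.mem_top _)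

/-- Subset sum is in `NP` exactly when the word problem is. -/
theorem inNPP_iff (g : Fin n → G) : InNPP (SubsetSum g) ↔
    InNPP (fun w : List (Fin n × Bool) => wval g w = 1) := by
  constructor
  · intro h
    refine Y548.inNPP_exists (α := List (Fin n × Bool)) (β := Bool) h
      (f := fun p => (([] : List (List (Fin n × Bool))), p.1))
      (Poly.pair (Poly.const _) (Poly.fst Poly.id)) (R := fun _ => true) (Poly.const true)
      (Polynomial.C 4 * Polynomial.X + Polynomial.C 4) ?_ ?_
    · intro w hw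
      refine ⟨true, ?_, rfl, (Y548.subsetSum_nil g w).2 hw⟩
      have := sz_bool_le true
      simp only [Polynomial.eval_add, Polynomial.eval_mul, Polynomial.eval_C, Polynomial.eval_X]
      omega
    · intro w b _ hw
      exact (Y548.subsetSum_nil g w).1 hw
  · intro h
    have hword : Poly (fun p : (List (List (Fin n × Bool)) × List (Fin n × Bool)) × List Bool =>
        selW p.2 p.1.1 ++ winv p.1.2) := by
      refine Poly.append ?_ ?_
      · refine Poly.flatMap (F := fun _ (q : Bool × List (Fin n × Bool)) =>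
          if q.1 then q.2 else []) (Poly.zip (Poly.snd Poly.id) (Poly.fst (Poly.fst Poly.id))) ?_
        exact (Poly.cond (Poly.fst (Poly.snd Poly.id)) (Poly.snd (Poly.snd Poly.id))
          (Poly.const [])).congr fun q => by cases q.2.1 <;> rfl
      · refine Poly.reverse (Poly.map (F := fun _ (l : Fin n × Bool) => (l.1, !l.2))
          (Poly.snd (Poly.fst Poly.id)) ?_)
        exact Poly.pair (Poly.fst (Poly.snd Poly.id)) (Poly.not (Poly.snd (Poly.snd Poly.id)))
    refine Y548.inNPP_exists (α := List (List (Fin n × Bool)) × List (Fin n × Bool))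
      (β := List Bool) h (f := fun p => selW p.2 p.1.1 ++ winv p.1.2) hword
      (R := fun p => decide (p.2.length = p.1.1.length))
      (Poly.decide_eq (Poly.length (Poly.snd Poly.id)) (Poly.length (Poly.fst (Poly.fst Poly.id))))
      (Polynomial.C 4 * Polynomial.X + 1) ?_ ?_
    · intro I hI
      obtain ⟨b, hb, hw⟩ := (subsetSum_iff g I).1 hI
      refine ⟨b, ?_, by simp [hb], hw⟩
      have e1 := sz_listBool_le b
      have e2 := length_lt_sz I.1
      have e3 : sz I = sz I.1 + sz I.2 + 1 := sz_pair _ _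
      simp only [Polynomial.eval_add, Polynomial.eval_mul, Polynomial.eval_C, Polynomial.eval_X,
        Polynomial.eval_one]
      omega
    · intro I b hR hQ
      simp only [decide_eq_true_eq] at hR
      exact (subsetSum_iff g I).2 ⟨b, hR, hQ⟩

end Pool.Agent.NPC.SSPN76
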