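import Mathlib

/-!
# Orbits under conjugation by cyclic groups, and Milnor's lemma
-/

namespace Pool.Agent.KS6_76.SSPN

variable {M : Type*} [Group M]

/-- The subgroup generated by the conjugates of `y` under the powers of `x`. -/
def cyc (x y : M) : Subgroup M := Subgroup.closure (Set.range fun j : ℤ => x ^ j * y * x ^ (-j))

/-- Iterated commutators `[x, [x, ... , [x, y]]]`. -/
def it (x y : M) : ℕ → M
  | 0 => y
  | i + 1 => x * it x y i * x⁻¹ * (it x y i)⁻¹

theorem mem_cyc (x y : M) (j : ℤ) : x ^ j * y * x ^ (-j) ∈ cyc x y :=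
  Subgroup.subset_closure ⟨j, rfl⟩

theorem self_mem_cyc (x y : M) : y ∈ cyc x y := by
  simpa using mem_cyc x y 0

theorem conj_mem_cyc (x y : M) (k : ℤ) {z : M} (hz : z ∈ cyc x y) :
    x ^ k * z * x ^ (-k) ∈ cyc x y := by
  induction hz using Subgroup.closure_induction with
  | mem z hz =>
    obtain ⟨j, rfl⟩ := hz
    have h := mem_cyc x y (k + j)
    have e : x ^ (k + j) * y * x ^ (-(k + j)) = x ^ k * (x ^ j * y * x ^ (-j)) * x ^ (-k) := by
      rw [zpow_add, neg_add_rev, zpow_add]
      group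
    rw [← e]
    exact h
  | one => simp
  | mul a b _ _ ha hb =>
    have e : x ^ k * (a * b) * x ^ (-k) = (x ^ k * a * x ^ (-k)) * (x ^ k * b * x ^ (-k)) := by
      group
    rw [e]
    exact mul_mem ha hb
  | inv a _ ha =>
    have e : x ^ k * a⁻¹ * x ^ (-k) = (x ^ k * a * x ^ (-k))⁻¹ := by
      group
    rw [e]
    exact inv_mem ha

theorem conj_mem_cyc_one (x y : M) {z : M} (hz : z ∈ cyc x y) : x * z * x⁻¹ ∈ cyc x y := by
  simpa using conj_mem_cyc x y 1 hz

theorem conj_mem_cyc_neg (x y : M) {z : M} (hz : z ∈ cyc x y) : x⁻¹ * z * x ∈ cyc x y := by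
  simpa using conj_mem_cyc x y (-1) hz

/-- A subgroup stable under conjugation by `x` and `x⁻¹` is stable under conjugation by all
powers of `x`. -/
theorem conj_zpow_mem {P : Subgroup M} {x : M} (h1 : ∀ z ∈ P, x * z * x⁻¹ ∈ P)
    (h2 : ∀ z ∈ P, x⁻¹ * z * x ∈ P) (k : ℤ) : ∀ z ∈ P, x ^ k * z * x ^ (-k) ∈ P := by
  induction k using Int.induction_on with
  | zero => intro z hz; simpa using hz
  | succ i ih =>
    intro z hz
    have h := h1 _ (ih z hz)
    have e : x ^ ((i : ℤ) + 1) * z * x ^ (-((i : ℤ) + 1)) =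
        x * (x ^ (i : ℤ) * z * x ^ (-(i : ℤ))) * x⁻¹ := by
      rw [add_comm, zpow_add, neg_add_rev, zpow_add]
      group
    rw [e]
    exact h
  | pred i ih =>
    intro z hz
    have h := h2 _ (ih z hz)
    have e : x ^ (-(i : ℤ) - 1) * z * x ^ (-(-(i : ℤ) - 1)) =
        x⁻¹ * (x ^ (-(i : ℤ)) * z * x ^ (-(-(i : ℤ)))) * x := by
      rw [show -(i : ℤ) - 1 = -1 + -(i : ℤ) by ring, zpow_add, neg_add_rev, zpow_add]
      group
    rw [e]
    exact h

theorem cyc_le {P : Subgroup M} {x y : M} (h1 : ∀ z ∈ P, x * z * x⁻¹ ∈ P)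
    (h2 : ∀ z ∈ P, x⁻¹ * z * x ∈ P) (hy : y ∈ P) : cyc x y ≤ P := by
  rw [cyc, Subgroup.closure_le]
  rintro _ ⟨j, rfl⟩
  exact conj_zpow_mem h1 h2 j y hy

theorem cyc_one (x : M) : cyc x (1 : M) = ⊥ := by
  rw [eq_bot_iff]
  refine cyc_le ?_ ?_ (by simp) <;> intro z hz <;> · rw [Subgroup.mem_bot] at hz ⊢; simp [hz]

/-- If the subgroup generated by the orbit of `[x, y]` is finitely generated, so is the one of
`y`. -/
theorem cyc_fg_step (x y : M) (h : (cyc x (x * y * x⁻¹ * y⁻¹)).FG) : (cyc x y).FG := by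
  set c := x * y * x⁻¹ * y⁻¹ with hc
  have hle : cyc x c ⊔ Subgroup.zpowers y = cyc x y := by
    apply le_antisymm
    · refine sup_le ?_ ?_
      · refine cyc_le (fun z hz => conj_mem_cyc_one x y hz) (fun z hz => conj_mem_cyc_neg x y hz) ?_
        rw [hc]
        exact mul_mem (conj_mem_cyc_one x y (self_mem_cyc x y)) (inv_mem (self_mem_cyc x y))
      · rw [Subgroup.zpowers_le]
        exact self_mem_cyc x y
    · have hyP : y ∈ cyc x c ⊔ Subgroup.zpowers y :=
        Subgroup.mem_sup_right (Subgroup.mem_zpowers y)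
      refine cyc_le ?_ ?_ hyP
      · intro z hz
        have : (cyc x c ⊔ Subgroup.zpowers y) ≤
            (cyc x c ⊔ Subgroup.zpowers y).comap (MulAut.conj x).toMonoidHom := by
          refine sup_le ?_ ?_
          · intro w hw
            exact Subgroup.mem_sup_left (conj_mem_cyc_one x c hw)
          · rw [Subgroup.zpowers_le]
            have e : (MulAut.conj x).toMonoidHom y = c * y := by
              simp [hc]
            rw [Subgroup.mem_comap, e]
            exact mul_mem (Subgroup.mem_sup_left (self_mem_cyc x c)) hyP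
        have h2 := this hz
        rw [Subgroup.mem_comap] at h2
        simpa using h2
      · intro z hz
        have : (cyc x c ⊔ Subgroup.zpowers y) ≤
            (cyc x c ⊔ Subgroup.zpowers y).comap (MulAut.conj x⁻¹).toMonoidHom := by
          refine sup_le ?_ ?_
          · intro w hw
            rw [Subgroup.mem_comap]
            have := conj_mem_cyc_neg x c hw
            exact Subgroup.mem_sup_left (by simpa using this)
          · rw [Subgroup.zpowers_le]
            have e : (MulAut.conj x⁻¹).toMonoidHom y = (x⁻¹ * c * x)⁻¹ * y := by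
              simp [hc]
              group
            rw [Subgroup.mem_comap, e]
            exact mul_mem (Subgroup.mem_sup_left
              (inv_mem (conj_mem_cyc_neg x c (self_mem_cyc x c)))) hyP
        have h2 := this hz
        rw [Subgroup.mem_comap] at h2
        simpa using h2
  rw [← hle]
  refine h.sup ?_
  rw [Subgroup.fg_iff]
  exact ⟨{y}, by rw [Subgroup.zpowers_eq_closure], Set.finite_singleton y⟩

theorem it_succ' (x y : M) (i : ℕ) : it x y (i + 1) = it x (x * y * x⁻¹ * y⁻¹) i := by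
  induction i with
  | zero => rfl
  | succ i ih =>
    change x * it x y (i + 1) * x⁻¹ * (it x y (i + 1))⁻¹ = _
    rw [ih]
    rfl

theorem cyc_fg_of_it (x : M) (m : ℕ) : ∀ y : M, (cyc x (it x y m)).FG → (cyc x y).FG := by
  induction m with
  | zero => intro y h; exact h
  | succ m ih =>
    intro y h
    rw [it_succ'] at h
    exact cyc_fg_step x y (ih _ h)

theorem it_conj (x y : M) (g : M) (hg : g * x = x * g) (m : ℕ) :
    it x (g * y * g⁻¹) m = g * it x y m * g⁻¹ := by
  induction m with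
  | zero => rfl
  | succ m ih =>
    change x * it x (g * y * g⁻¹) m * x⁻¹ * (it x (g * y * g⁻¹) m)⁻¹ =
      g * (x * it x y m * x⁻¹ * (it x y m)⁻¹) * g⁻¹
    rw [ih]
    have e1 : g⁻¹ * x⁻¹ = x⁻¹ * g⁻¹ := by
      rw [← mul_inv_rev, ← mul_inv_rev, hg]
    calc x * (g * it x y m * g⁻¹) * x⁻¹ * (g * it x y m * g⁻¹)⁻¹
        = (x * g) * it x y m * (g⁻¹ * x⁻¹) * g * (it x y m)⁻¹ * g⁻¹ := by group
      _ = (g * x) * it x y m * (x⁻¹ * g⁻¹) * g * (it x y m)⁻¹ * g⁻¹ := by rw [hg, e1]
      _ = g * (x * it x y m * x⁻¹ * (it x y m)⁻¹) * g⁻¹ := by group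

/-- If some iterated commutator of a power of `x` with `y` vanishes then the orbit of `y` under
`x` generates a finitely generated subgroup. -/
theorem cyc_fg_of_pow (x y : M) (n : ℕ) (hn : 0 < n) (m : ℕ) (h : it (x ^ n) y m = 1) :
    (cyc x y).FG := by
  have key : cyc x y = ⨆ j : Fin n, cyc (x ^ n) (x ^ (j : ℕ) * y * (x ^ (j : ℕ))⁻¹) := by
    apply le_antisymm
    · rw [cyc, Subgroup.closure_le]
      rintro _ ⟨k, rfl⟩
      have hn' : (0 : ℤ) < n := by exact_mod_cast hn
      have h1 : 0 ≤ k % n := Int.emod_nonneg k hn'.ne'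
      have h2 : k % n < n := Int.emod_lt_of_pos k hn'
      obtain ⟨j, hj⟩ := Int.eq_ofNat_of_zero_le h1
      have hjn : j < n := by omega
      refine Subgroup.mem_iSup_of_mem ⟨j, hjn⟩ ?_
      have h3 := mem_cyc (x ^ n) (x ^ j * y * (x ^ j)⁻¹) (k / n)
      have e : x ^ k * y * x ^ (-k) =
          (x ^ n) ^ (k / n) * (x ^ j * y * (x ^ j)⁻¹) * (x ^ n) ^ (-(k / n)) := by
        have e1 : k = n * (k / n) + j := by
          rw [← hj]; exact (Int.mul_ediv_add_emod k n).symm
        have e2 : x ^ k = (x ^ n) ^ (k / n) * x ^ j := by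
          conv_lhs => rw [e1]
          rw [zpow_add, zpow_mul, zpow_natCast, zpow_natCast]
        rw [zpow_neg, e2, zpow_neg]
        group
      change x ^ k * y * x ^ (-k) ∈ _
      rw [e]
      exact h3
    · refine iSup_le fun j => ?_
      refine cyc_le ?_ ?_ ?_
      · intro z hz
        have := conj_mem_cyc x y n hz
        simpa using this
      · intro z hz
        have := conj_mem_cyc x y (-n) hz
        simpa using this
      · have := mem_cyc x y (j : ℕ)
        simpa using this
  rw [key]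
  refine Subgroup.FG.iSup _ fun j => ?_
  apply cyc_fg_of_it (x ^ n) m
  rw [it_conj _ _ _ (by rw [← pow_add, ← pow_add, add_comm]), h]
  simp only [mul_one, mul_inv_cancel]
  rw [cyc_one]
  exact Subgroup.FG.bot

end Pool.Agent.KS6_76.SSPN
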