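import Pool.Agent.KS6_76.SSPN.Mil

/-!
# Milnor's lemma along chains; invariant subgroups of finite index
-/

namespace Pool.Agent.KS6_76.SSPN

variable {M : Type*} [Group M]

theorem mem_sup_zpowers {N : Subgroup M} {x : M} (h1 : ∀ z ∈ N, x * z * x⁻¹ ∈ N)
    (h2 : ∀ z ∈ N, x⁻¹ * z * x ∈ N) {l : M} (hl : l ∈ N ⊔ Subgroup.zpowers x) :
    ∃ y ∈ N, ∃ e : ℤ, l = y * x ^ e := by
  let K : Subgroup M :=
    { carrier := {l | ∃ y ∈ N, ∃ e : ℤ, l = y * x ^ e}
      mul_mem' := by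
        rintro _ _ ⟨y, hy, e, rfl⟩ ⟨y', hy', e', rfl⟩
        refine ⟨y * (x ^ e * y' * x ^ (-e)), mul_mem hy (conj_zpow_mem h1 h2 e y' hy'), e + e', ?_⟩
        rw [zpow_add]
        group
      one_mem' := ⟨1, one_mem _, 0, by simp⟩
      inv_mem' := by
        rintro _ ⟨y, hy, e, rfl⟩
        refine ⟨x ^ (-e) * y⁻¹ * x ^ (-(-e)), conj_zpow_mem h1 h2 (-e) _ (inv_mem hy), -e, ?_⟩
        group }
  have hK : N ⊔ Subgroup.zpowers x ≤ K := by
    refine sup_le ?_ ?_
    · intro y hy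
      exact ⟨y, hy, 0, by simp⟩
    · rw [Subgroup.zpowers_le]
      exact ⟨1, one_mem _, 1, by simp⟩
  exact hK hl

theorem fg_inf_zpowers (N : Subgroup M) (x : M) : (N ⊓ Subgroup.zpowers x).FG := by
  obtain ⟨a, ha⟩ := Int.subgroup_cyclic
    (((N.comap (zpowersHom M x)).toAddSubgroup' : AddSubgroup ℤ))
  have hmem : ∀ e : ℤ, x ^ e ∈ N ↔ e ∈ AddSubgroup.closure {a} := by
    intro e
    rw [← ha]
    rfl
  have key : N ⊓ Subgroup.zpowers x = Subgroup.zpowers (x ^ a) := by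
    apply le_antisymm
    · rintro z ⟨hz, e, rfl⟩
      have hz' : x ^ e ∈ N := hz
      rw [hmem, AddSubgroup.mem_closure_singleton] at hz'
      obtain ⟨k, hk⟩ := hz'
      refine ⟨k, ?_⟩
      change (x ^ a) ^ k = x ^ e
      rw [← zpow_mul, ← hk, smul_eq_mul, mul_comm]
    · rw [Subgroup.zpowers_le]
      exact ⟨(hmem a).2 (AddSubgroup.subset_closure rfl), ⟨a, rfl⟩⟩
  rw [key, Subgroup.fg_iff]
  exact ⟨{x ^ a}, by rw [Subgroup.zpowers_eq_closure], Set.finite_singleton _⟩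

/-- **Milnor's lemma.** -/
theorem milnor (N : Subgroup M) (x : M) (h1 : ∀ z ∈ N, x * z * x⁻¹ ∈ N)
    (h2 : ∀ z ∈ N, x⁻¹ * z * x ∈ N) (hL : (N ⊔ Subgroup.zpowers x).FG)
    (hc : ∀ y ∈ N, (cyc x y).FG) : N.FG := by
  obtain ⟨S, hS⟩ := hL
  have hmem : ∀ s : S, ∃ y ∈ N, ∃ e : ℤ, (s : M) = y * x ^ e := by
    intro s
    apply mem_sup_zpowers h1 h2
    rw [← hS]
    exact Subgroup.subset_closure s.2
  choose y hy e he using hmem
  have hPN : (⨆ s : S, cyc x (y s)) ≤ N := iSup_le fun s => cyc_le h1 h2 (hy s)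
  have hPfg : (⨆ s : S, cyc x (y s)).FG := Subgroup.FG.iSup _ fun s => hc _ (hy s)
  set P := ⨆ s : S, cyc x (y s) with hP
  have p1 : ∀ z ∈ P, x * z * x⁻¹ ∈ P := by
    have : P ≤ P.comap (MulAut.conj x).toMonoidHom := by
      refine iSup_le fun s => ?_
      intro w hw
      rw [Subgroup.mem_comap]
      exact Subgroup.mem_iSup_of_mem s (conj_mem_cyc_one x _ hw)
    intro z hz
    have h := this hz
    rw [Subgroup.mem_comap] at h
    simpa using h
  have p2 : ∀ z ∈ P, x⁻¹ * z * x ∈ P := by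
    have : P ≤ P.comap (MulAut.conj x⁻¹).toMonoidHom := by
      refine iSup_le fun s => ?_
      intro w hw
      rw [Subgroup.mem_comap]
      have := conj_mem_cyc_neg x _ hw
      exact Subgroup.mem_iSup_of_mem s (by simpa using this)
    intro z hz
    have h := this hz
    rw [Subgroup.mem_comap] at h
    simpa using h
  have hle : N ≤ P ⊔ Subgroup.zpowers x := by
    have h3 : N ⊔ Subgroup.zpowers x ≤ P ⊔ Subgroup.zpowers x := by
      rw [← hS, Subgroup.closure_le]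
      intro s hs
      have h4 := he ⟨s, hs⟩
      change s ∈ P ⊔ Subgroup.zpowers x
      simp only at h4
      rw [h4]
      exact mul_mem (Subgroup.mem_sup_left (Subgroup.mem_iSup_of_mem ⟨s, hs⟩
        (self_mem_cyc x _))) (Subgroup.mem_sup_right ⟨_, rfl⟩)
    exact le_sup_left.trans h3
  have key : N = P ⊔ (N ⊓ Subgroup.zpowers x) := by
    apply le_antisymm
    · intro z hz
      obtain ⟨p, hp, k, hk⟩ := mem_sup_zpowers p1 p2 (hle hz)
      rw [hk]
      have e3 : x ^ k = p⁻¹ * z := by rw [hk]; group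
      have e4 : x ^ k ∈ N := by
        rw [e3]
        exact N.mul_mem (N.inv_mem (hPN hp)) hz
      exact mul_mem (Subgroup.mem_sup_left hp)
        (Subgroup.mem_sup_right (Subgroup.mem_inf.2 ⟨e4, ⟨k, rfl⟩⟩))
    · exact sup_le hPN inf_le_left
  rw [key]
  exact hPfg.sup (fg_inf_zpowers N x)

/-- The chain version of Milnor's lemma. -/
theorem chain_fg [DecidableEq M] (N : Subgroup M) (S : Finset M) : ∀ L : Subgroup M,
    L = N ⊔ Subgroup.closure (S : Set M) → (∀ a ∈ L, ∀ b ∈ L, a * b * a⁻¹ * b⁻¹ ∈ N) → L.FG →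
    (∀ x ∈ L, ∀ y ∈ L, (cyc x y).FG) → N.FG := by
  induction S using Finset.induction_on with
  | empty =>
    intro L hL _ hfg _
    rw [Finset.coe_empty, Subgroup.closure_empty, sup_bot_eq] at hL
    rw [← hL]
    exact hfg
  | insert x S _ ih =>
    intro L hL hcomm hfg hcyc
    have hL2 : L = (N ⊔ Subgroup.closure (S : Set M)) ⊔ Subgroup.zpowers x := by
      rw [hL, Finset.coe_insert, Set.insert_eq, Subgroup.closure_union,
        ← Subgroup.zpowers_eq_closure, sup_assoc]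
      congr 1
      rw [sup_comm]
    set L' := N ⊔ Subgroup.closure (S : Set M) with hL'
    have hle : L' ≤ L := by rw [hL2]; exact le_sup_left
    have hxL : x ∈ L := by
      rw [hL2]; exact Subgroup.mem_sup_right (Subgroup.mem_zpowers x)
    have hNL : N ≤ L' := le_sup_left
    have h1 : ∀ z ∈ L', x * z * x⁻¹ ∈ L' := by
      intro z hz
      have e : x * z * x⁻¹ = (x * z * x⁻¹ * z⁻¹) * z := by group
      rw [e]
      exact mul_mem (hNL (hcomm x hxL z (hle hz))) hz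
    have h2 : ∀ z ∈ L', x⁻¹ * z * x ∈ L' := by
      intro z hz
      have e : x⁻¹ * z * x = (x⁻¹ * z * x⁻¹⁻¹ * z⁻¹) * z := by group
      rw [e]
      exact mul_mem (hNL (hcomm x⁻¹ (inv_mem hxL) z (hle hz))) hz
    have hfg' : L'.FG := by
      refine milnor L' x h1 h2 (by rw [← hL2]; exact hfg) ?_
      intro y hy
      exact hcyc x hxL y (hle hy)
    exact ih L' rfl (fun a ha b hb => hcomm a (hle ha) b (hle hb)) hfg'
      (fun a ha b hb => hcyc a (hle ha) b (hle hb))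

/-- A finitely generated group has finitely many homomorphisms to a finite group. -/
theorem finite_hom {N : Type*} [Group N] [Group.FG N] (P : Type*) [Group P] [Finite P] :
    Finite (N →* P) := by
  obtain ⟨S, hS⟩ := Group.fg_def.1 (inferInstance : Group.FG N)
  refine Finite.of_injective (fun φ : N →* P => fun s : S => φ s) ?_
  intro φ ψ h
  refine MonoidHom.eq_of_eqOn_dense (s := (S : Set N)) (by rw [← hS]) ?_
  intro s hs
  exact congrFun h ⟨s, hs⟩

/-- Inside a finitely generated subgroup `N`, every subgroup of finite index contains one that is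
stable under all elements that normalise `N`. -/
theorem exists_char {N K : Subgroup M} (hN : N.FG) (hK : K.relIndex N ≠ 0) :
    ∃ K' : Subgroup M, K' ≤ K ∧ K'.relIndex N ≠ 0 ∧
      ∀ x : M, (∀ z ∈ N, x * z * x⁻¹ ∈ N) → ∀ z ∈ K', x * z * x⁻¹ ∈ K' := by
  have : Group.FG N := (Group.fg_iff_subgroup_fg N).2 hN
  let KN : Subgroup N := K.subgroupOf N
  have hfin : KN.FiniteIndex := ⟨hK⟩
  have hfinq : Finite (N ⧸ KN) := inferInstance
  have : Finite (N →* Equiv.Perm (N ⧸ KN)) := finite_hom _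
  let Ch : Subgroup N := ⨅ φ : N →* Equiv.Perm (N ⧸ KN), φ.ker
  have hCh : Ch.FiniteIndex := Subgroup.finiteIndex_iInf fun φ => inferInstance
  have hle : Ch ≤ KN := by
    refine (iInf_le _ (MulAction.toPermHom N (N ⧸ KN))).trans ?_
    rw [← Subgroup.normalCore_eq_ker]
    exact Subgroup.normalCore_le KN
  refine ⟨Ch.map N.subtype, ?_, ?_, ?_⟩
  · rintro _ ⟨z, hz, rfl⟩
    exact hle hz
  · have e : (Ch.map N.subtype).subgroupOf N = Ch := by
      rw [Subgroup.subgroupOf, Subgroup.comap_map_eq_self_of_injective N.subtype_injective]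
    rw [Subgroup.relIndex, e]
    exact hCh.index_ne_zero
  · rintro x hx _ ⟨z, hz, rfl⟩
    let σ : N →* N :=
      { toFun := fun z => ⟨x * z * x⁻¹, hx z z.2⟩
        map_one' := by ext; simp
        map_mul' := by intro a b; ext; simp }
    refine ⟨σ z, ?_, rfl⟩
    change σ z ∈ Ch
    rw [Subgroup.mem_iInf]
    intro φ
    have h1 : z ∈ Ch := hz
    rw [Subgroup.mem_iInf] at h1
    have h2 := h1 (φ.comp σ)
    rw [MonoidHom.mem_ker] at h2 ⊢
    exact h2

/-- Finite index of `K ⊔ ⟨x ^ n⟩` in `N ⊔ ⟨x⟩`. -/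
theorem relIndex_sup {N K : Subgroup M} (hK : K.relIndex N ≠ 0) (x : M)
    (h1 : ∀ z ∈ N, x * z * x⁻¹ ∈ N) (h2 : ∀ z ∈ N, x⁻¹ * z * x ∈ N)
    (k1 : ∀ z ∈ K, x * z * x⁻¹ ∈ K) (k2 : ∀ z ∈ K, x⁻¹ * z * x ∈ K) (n : ℕ) (hn : 0 < n) :
    (K ⊔ Subgroup.zpowers (x ^ n)).relIndex (N ⊔ Subgroup.zpowers x) ≠ 0 := by
  have hfin : (K.subgroupOf N).FiniteIndex := ⟨hK⟩
  have hfinq : Finite (N ⧸ K.subgroupOf N) := inferInstance
  set L := N ⊔ Subgroup.zpowers x with hL
  set H := K ⊔ Subgroup.zpowers (x ^ n) with hH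
  have hNL : N ≤ L := le_sup_left
  have hxL : x ∈ L := Subgroup.mem_sup_right (Subgroup.mem_zpowers x)
  let f : (N ⧸ K.subgroupOf N) × Fin n → L ⧸ H.subgroupOf L := fun p =>
    ((⟨(p.1.out : N) * x ^ (p.2 : ℕ), mul_mem (hNL (p.1.out : N).2) (pow_mem hxL _)⟩ : L) :
      L ⧸ H.subgroupOf L)
  have hsurj : Function.Surjective f := by
    intro q
    obtain ⟨l, rfl⟩ := QuotientGroup.mk_surjective q
    obtain ⟨y, hy, e, hl⟩ := mem_sup_zpowers h1 h2 l.2
    have hn' : (0 : ℤ) < n := by exact_mod_cast hn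
    have e1 : 0 ≤ e % n := Int.emod_nonneg e hn'.ne'
    have e2 : e % n < n := Int.emod_lt_of_pos e hn'
    obtain ⟨j, hj⟩ := Int.eq_ofNat_of_zero_le e1
    have hjn : j < n := by omega
    have e3 : e = j + n * (e / n) := by
      rw [← hj]; exact (Int.emod_add_mul_ediv e n).symm
    refine ⟨(((⟨y, hy⟩ : N) : N ⧸ K.subgroupOf N), ⟨j, hjn⟩), ?_⟩
    rw [QuotientGroup.eq]
    rw [Subgroup.mem_subgroupOf]
    set y0 : N := (((⟨y, hy⟩ : N) : N ⧸ K.subgroupOf N)).out with hy0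
    have h3 : y0⁻¹ * (⟨y, hy⟩ : N) ∈ K.subgroupOf N := by
      rw [← QuotientGroup.eq, hy0, QuotientGroup.out_eq']
    rw [Subgroup.mem_subgroupOf] at h3
    have h3' : (y0 : M)⁻¹ * y ∈ K := by simpa using h3
    have h4 : x ^ (-(j : ℤ)) * ((y0 : M)⁻¹ * y) * x ^ (-(-(j : ℤ))) ∈ K :=
      conj_zpow_mem k1 k2 (-(j : ℤ)) _ h3'
    have h5 : (((⟨(y0 : M) * x ^ j, mul_mem (hNL y0.2) (pow_mem hxL _)⟩ : L)⁻¹ * l : L) : M) =
        (x ^ (-(j : ℤ)) * ((y0 : M)⁻¹ * y) * x ^ (-(-(j : ℤ)))) * (x ^ n) ^ (e / n) := by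
      rw [Subgroup.coe_mul, Subgroup.coe_inv, hl]
      simp only
      conv_lhs => rw [e3]
      rw [zpow_add, zpow_mul, zpow_natCast, zpow_natCast]
      group
    change (((⟨(y0 : M) * x ^ j, mul_mem (hNL y0.2) (pow_mem hxL _)⟩ : L)⁻¹ * l : L) : M) ∈ H
    rw [h5]
    exact mul_mem (Subgroup.mem_sup_left h4) (Subgroup.mem_sup_right ⟨_, rfl⟩)
  have hfin2 : Finite (L ⧸ H.subgroupOf L) := Finite.of_surjective f hsurj
  have : (H.subgroupOf L).FiniteIndex := Subgroup.finiteIndex_of_finite_quotient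
  exact this.index_ne_zero

end Pool.Agent.KS6_76.SSPN
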