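import Pool.Agent.KS6_76.SSPN.Mil2

/-!
# Unipotent actions and virtual nilpotency of abelian-by-nilpotent groups
-/

namespace Pool.Agent.KS6_76.SSPN

variable {M : Type*} [Group M] {V : Type*} [AddCommGroup V] (ρ : M →* Module.End ℤ V)

/-- The ascending filtration of `V` attached to the subgroup `K`. -/
def Fil (K : Subgroup M) : ℕ → Submodule ℤ V
  | 0 => ⊥
  | i + 1 =>
    { carrier := {v | ∀ k ∈ K, ρ k v - v ∈ Fil K i}
      add_mem' := by
        intro a b ha hb k hk
        have e : ρ k (a + b) - (a + b) = (ρ k a - a) + (ρ k b - b) := by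
          rw [map_add]; abel
        rw [e]
        exact add_mem (ha k hk) (hb k hk)
      zero_mem' := by
        intro k _
        rw [map_zero, sub_zero]
        exact zero_mem _
      smul_mem' := by
        intro c v hv k hk
        rw [map_smul, ← smul_sub]
        exact Submodule.smul_mem _ _ (hv k hk) }

theorem mem_fil_succ (K : Subgroup M) (i : ℕ) (v : V) :
    v ∈ Fil ρ K (i + 1) ↔ ∀ k ∈ K, ρ k v - v ∈ Fil ρ K i := Iff.rfl

theorem fil_le_succ (K : Subgroup M) (i : ℕ) : Fil ρ K i ≤ Fil ρ K (i + 1) := by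
  induction i with
  | zero =>
    intro v hv k _
    have : v = 0 := hv
    rw [this, map_zero, sub_zero]
    exact zero_mem _
  | succ i ih =>
    intro v hv k hk
    exact ih (hv k hk)

theorem fil_mono (K : Subgroup M) : Monotone (Fil ρ K) := monotone_nat_of_le_succ (fil_le_succ ρ K)

theorem fil_anti {K L : Subgroup M} (h : K ≤ L) (i : ℕ) : Fil ρ L i ≤ Fil ρ K i := by
  induction i with
  | zero => exact le_rfl
  | succ i ih =>
    intro v hv k hk
    exact ih (hv k (h hk))

theorem fil_inv {K : Subgroup M} {x : M} (hx : ∀ k ∈ K, x⁻¹ * k * x ∈ K) (i : ℕ) :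
    ∀ v ∈ Fil ρ K i, ρ x v ∈ Fil ρ K i := by
  induction i with
  | zero =>
    intro v hv
    have : v = 0 := hv
    rw [this, map_zero]
    exact zero_mem _
  | succ i ih =>
    intro v hv k hk
    have e : ρ k (ρ x v) - ρ x v = ρ x (ρ (x⁻¹ * k * x) v - v) := by
      rw [map_sub, ← Module.End.mul_apply, ← Module.End.mul_apply, ← map_mul, ← map_mul]
      congr 3
      group
    rw [e]
    exact ih _ (hv _ (hx k hk))

/-- Unipotency of the action of a subgroup. -/
def Unip (K : Subgroup M) : Prop := ∃ c, Fil ρ K c = ⊤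

theorem unip_sup {K : Subgroup M} {x : M} (hx : ∀ k ∈ K, x⁻¹ * k * x ∈ K) (m : ℕ)
    (hm : (ρ x - 1) ^ m = 0) (hK : Unip ρ K) : Unip ρ (K ⊔ Subgroup.zpowers x) := by
  obtain ⟨c, hc⟩ := hK
  set L := K ⊔ Subgroup.zpowers x with hL
  have hinvL : ∀ (l : M), l ∈ L → ∀ i, ∀ v ∈ Fil ρ L i, ρ l v ∈ Fil ρ L i := by
    intro l hl i
    exact fil_inv ρ (fun k hk => mul_mem (mul_mem (inv_mem hl) hk) hl) i
  have sub : ∀ i s, Fil ρ K i ≤ Fil ρ L s → ∀ j, ∀ v ∈ Fil ρ K (i + 1),
      ((ρ x - 1) ^ j) v ∈ Fil ρ L s → v ∈ Fil ρ L (s + j) := by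
    intro i s his j
    induction j with
    | zero => intro v _ hv; simpa using hv
    | succ j ih =>
      intro v hv hv2
      change ∀ l ∈ L, ρ l v - v ∈ Fil ρ L (s + j)
      let St : Subgroup M :=
        { carrier := {l | l ∈ L ∧ ρ l v - v ∈ Fil ρ L (s + j)}
          mul_mem' := by
            rintro a b ⟨ha, ha2⟩ ⟨hb, hb2⟩
            refine ⟨mul_mem ha hb, ?_⟩
            have e : ρ (a * b) v - v = ρ a (ρ b v - v) + (ρ a v - v) := by
              rw [map_mul, Module.End.mul_apply, map_sub]; abel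
            rw [e]
            exact add_mem (hinvL a ha _ _ hb2) ha2
          one_mem' := by
            refine ⟨one_mem _, ?_⟩
            rw [map_one, Module.End.one_apply, sub_self]
            exact zero_mem _
          inv_mem' := by
            rintro a ⟨ha, ha2⟩
            refine ⟨inv_mem ha, ?_⟩
            have e : ρ a⁻¹ v - v = - ρ a⁻¹ (ρ a v - v) := by
              rw [map_sub, ← Module.End.mul_apply, ← map_mul, inv_mul_cancel, map_one,
                Module.End.one_apply]
              abel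
            rw [e]
            exact neg_mem (hinvL _ (inv_mem ha) _ _ ha2) }
      have hSt : L ≤ St := by
        rw [hL]
        refine sup_le ?_ ?_
        · intro k hk
          exact ⟨Subgroup.mem_sup_left hk, fil_mono ρ L (by omega : s ≤ s + j) (his (hv k hk))⟩
        · rw [Subgroup.zpowers_le]
          refine ⟨Subgroup.mem_sup_right (Subgroup.mem_zpowers x), ?_⟩
          apply ih
          · exact sub_mem (fil_inv ρ hx _ _ hv) hv
          · have e : ((ρ x - 1) ^ j) (ρ x v - v) = ((ρ x - 1) ^ (j + 1)) v := by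
              rw [pow_succ, Module.End.mul_apply, LinearMap.sub_apply, Module.End.one_apply]
            rw [e]
            exact hv2
      intro l hl
      exact (hSt hl).2
  have key : ∀ i, Fil ρ K i ≤ Fil ρ L (i * m) := by
    intro i
    induction i with
    | zero => simp [Fil]
    | succ i ih =>
      intro v hv
      have := sub i (i * m) ih m v hv (by rw [hm]; exact zero_mem _)
      rw [Nat.succ_mul]
      exact this
  refine ⟨c * m, ?_⟩
  rw [eq_top_iff, ← hc]
  exact key c

/-- A locally quasi-unipotent endomorphism of a finitely generated abelian group is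
quasi-unipotent. -/
theorem unif [Module.Finite ℤ V] (f : Module.End ℤ V)
    (h : ∀ v, ∃ n : ℕ, 0 < n ∧ ∃ m : ℕ, ((f ^ n - 1) ^ m) v = 0) :
    ∃ n : ℕ, 0 < n ∧ ∃ m : ℕ, (f ^ n - 1) ^ m = 0 := by
  obtain ⟨S, hS⟩ := (Module.Finite.fg_top : (⊤ : Submodule ℤ V).FG)
  choose n hn m hm using h
  refine ⟨∏ s ∈ S, n s, Finset.prod_pos fun s _ => hn s, ∑ s ∈ S, m s, ?_⟩
  have key : ∀ s ∈ S, ((f ^ (∏ s ∈ S, n s) - 1) ^ (∑ s ∈ S, m s)) s = 0 := by
    intro s hs
    obtain ⟨q, hq⟩ := Finset.dvd_prod_of_mem n hs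
    have h1 : m s ≤ ∑ s ∈ S, m s := Finset.single_le_sum (f := m) (fun _ _ => Nat.zero_le _) hs
    obtain ⟨r, hr⟩ := Nat.exists_eq_add_of_le h1
    rw [hq, hr, pow_mul, ← geom_sum_mul]
    have hcomm : Commute (∑ i ∈ Finset.range q, (f ^ n s) ^ i) (f ^ n s - 1) := by
      refine Commute.sum_left _ _ _ fun i _ => ?_
      exact ((Commute.refl _).pow_left _).sub_right (Commute.one_right _)
    rw [hcomm.mul_pow, add_comm (m s) r, pow_add (f ^ n s - 1), Module.End.mul_apply,
      Module.End.mul_apply, hm, map_zero, map_zero]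
  apply LinearMap.ext
  intro v
  have hv : v ∈ Submodule.span ℤ (S : Set V) := by rw [hS]; trivial
  induction hv using Submodule.span_induction with
  | mem s hs => rw [key s hs]; rfl
  | zero => rw [map_zero, map_zero]
  | add a b _ _ ha hb => rw [map_add, ha, hb, map_add]
  | smul c a _ ha => rw [map_smul, ha, map_smul]

end Pool.Agent.KS6_76.SSPN
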