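import Pool.Agent.KS6_76.SSPN.Uni

/-!
# Finitely generated abelian-by-nilpotent groups with locally quasi-unipotent action
-/

namespace Pool.Agent.KS6_76.SSPN

open scoped commutatorElement

variable {M : Type*} [Group M]

/-- An additive model of a normal abelian subgroup together with the conjugation action. -/
structure Model (A : Subgroup M) (V : Type*) [AddCommGroup V] where
  /-- the action -/
  ρ : M →* Module.End ℤ V
  /-- the identification -/
  κ : V → M
  add : ∀ u v, κ (u + v) = κ u * κ v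
  inj : Function.Injective κ
  conj : ∀ x v, κ (ρ x v) = x * κ v * x⁻¹
  mem : ∀ a, a ∈ A ↔ ∃ v, κ v = a

namespace Model

variable {A : Subgroup M} {V : Type*} [AddCommGroup V] (D : Model A V)
include D

theorem zero : D.κ 0 = 1 := by
  have h := D.add 0 0
  rw [add_zero] at h
  exact mul_eq_left.1 h.symm

theorem neg (v : V) : D.κ (-v) = (D.κ v)⁻¹ := by
  have h := D.add (-v) v
  rw [neg_add_cancel, D.zero] at h
  exact eq_inv_of_mul_eq_one_left h.symm

theorem sub (u v : V) : D.κ (u - v) = D.κ u * (D.κ v)⁻¹ := by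
  rw [sub_eq_add_neg, D.add, D.neg]

theorem it_eq (x : M) (v : V) (m : ℕ) : it x (D.κ v) m = D.κ (((D.ρ x - 1) ^ m) v) := by
  induction m with
  | zero => rfl
  | succ m ih =>
    change x * it x (D.κ v) m * x⁻¹ * (it x (D.κ v) m)⁻¹ = _
    rw [ih, ← D.conj, ← D.sub, pow_succ', Module.End.mul_apply, LinearMap.sub_apply,
      Module.End.one_apply]

theorem comm {a b : M} (ha : a ∈ A) (hb : b ∈ A) : a * b = b * a := by
  obtain ⟨u, rfl⟩ := (D.mem a).1 ha
  obtain ⟨v, rfl⟩ := (D.mem b).1 hb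
  rw [← D.add, ← D.add, add_comm]

/-- The image of a submodule. -/
def img (W : Submodule ℤ V) : Subgroup M where
  carrier := {a | ∃ v ∈ W, D.κ v = a}
  mul_mem' := by
    rintro _ _ ⟨u, hu, rfl⟩ ⟨v, hv, rfl⟩
    exact ⟨u + v, add_mem hu hv, D.add u v⟩
  one_mem' := ⟨0, zero_mem _, D.zero⟩
  inv_mem' := by
    rintro _ ⟨u, hu, rfl⟩
    exact ⟨-u, neg_mem hu, D.neg u⟩

theorem finite_of_fg (h : A.FG) : Module.Finite ℤ V := by
  obtain ⟨S, hS⟩ := h
  classical
  have hSm : ∀ s : S, ∃ v, D.κ v = s := fun s => (D.mem s).1 (by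
    rw [← hS]; exact Subgroup.subset_closure s.2)
  choose f hf using hSm
  refine ⟨⟨Finset.univ.image f, ?_⟩⟩
  rw [eq_top_iff]
  intro v _
  have h1 : Subgroup.closure (S : Set M) ≤
      D.img (Submodule.span ℤ ((Finset.univ.image f : Finset V) : Set V)) := by
    rw [Subgroup.closure_le]
    intro s hs
    refine ⟨f ⟨s, hs⟩, Submodule.subset_span ?_, hf ⟨s, hs⟩⟩
    simp
  obtain ⟨w, hw, hwv⟩ := h1 (by rw [hS]; exact (D.mem (D.κ v)).2 ⟨v, rfl⟩)
  rw [← D.inj hwv]
  exact hw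

/-- The step along a cyclic extension. -/
theorem good_step {N : Subgroup M} (hN : N.FG) (hV : Module.Finite ℤ V) {x : M}
    (h1 : ∀ z ∈ N, x * z * x⁻¹ ∈ N) (h2 : ∀ z ∈ N, x⁻¹ * z * x ∈ N)
    (hq : ∀ v, ∃ n : ℕ, 0 < n ∧ ∃ m : ℕ, (((D.ρ x) ^ n - 1) ^ m) v = 0)
    (hg : ∃ K : Subgroup M, K.relIndex N ≠ 0 ∧ Unip D.ρ K) :
    ∃ K : Subgroup M, K.relIndex (N ⊔ Subgroup.zpowers x) ≠ 0 ∧ Unip D.ρ K := by
  obtain ⟨K, hK, hu⟩ := hg
  obtain ⟨K', hK', hi, hc⟩ := exists_char hN hK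
  obtain ⟨n, hn, m, hm⟩ := unif (D.ρ x) hq
  have hu' : Unip D.ρ K' := by
    obtain ⟨c, hc⟩ := hu
    refine ⟨c, ?_⟩
    rw [eq_top_iff, ← hc]
    exact fil_anti D.ρ hK' c
  have k1 : ∀ z ∈ K', x * z * x⁻¹ ∈ K' := hc x h1
  have k2 : ∀ z ∈ K', x⁻¹ * z * x ∈ K' := by
    have := hc x⁻¹ (by simpa using h2)
    simpa using this
  refine ⟨K' ⊔ Subgroup.zpowers (x ^ n), relIndex_sup hi x h1 h2 k1 k2 n hn, ?_⟩
  refine unip_sup D.ρ ?_ m (by rw [map_pow]; exact hm) hu'
  intro k hk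
  have := conj_zpow_mem k1 k2 (-(n : ℤ)) k hk
  simpa using this

/-- The step along an abelian extension. -/
theorem good_chain [DecidableEq M] {N L : Subgroup M} (hN : N.FG) (hV : Module.Finite ℤ V)
    (hNL : N ≤ L) (hcomm : ∀ a ∈ L, ∀ b ∈ L, a * b * a⁻¹ * b⁻¹ ∈ N)
    (hq : ∀ x v, ∃ n : ℕ, 0 < n ∧ ∃ m : ℕ, (((D.ρ x) ^ n - 1) ^ m) v = 0)
    (hg : ∃ K : Subgroup M, K.relIndex N ≠ 0 ∧ Unip D.ρ K) (S : Finset M) :
    (∀ s ∈ S, s ∈ L) →
    ∃ K : Subgroup M, K.relIndex (N ⊔ Subgroup.closure (S : Set M)) ≠ 0 ∧ Unip D.ρ K := by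
  induction S using Finset.induction_on with
  | empty => intro _; simpa using hg
  | insert x S _ ih =>
    intro hS
    have hxL : x ∈ L := hS x (Finset.mem_insert_self x S)
    have hSL : ∀ s ∈ S, s ∈ L := fun s hs => hS s (Finset.mem_insert_of_mem hs)
    have e : N ⊔ Subgroup.closure ((insert x S : Finset M) : Set M) =
        (N ⊔ Subgroup.closure (S : Set M)) ⊔ Subgroup.zpowers x := by
      rw [Finset.coe_insert, Set.insert_eq, Subgroup.closure_union,
        ← Subgroup.zpowers_eq_closure, sup_assoc]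
      congr 1
      rw [sup_comm]
    rw [e]
    have hle : N ⊔ Subgroup.closure (S : Set M) ≤ L := by
      refine sup_le hNL ?_
      rw [Subgroup.closure_le]
      exact hSL
    refine D.good_step (hN.sup ⟨S, rfl⟩) hV ?_ ?_ (hq x) (ih hSL)
    · intro z hz
      have e : x * z * x⁻¹ = (x * z * x⁻¹ * z⁻¹) * z := by group
      rw [e]
      exact mul_mem (Subgroup.mem_sup_left (hcomm x hxL z (hle hz))) hz
    · intro z hz
      have e : x⁻¹ * z * x = (x⁻¹ * z * x⁻¹⁻¹ * z⁻¹) * z := by group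
      rw [e]
      exact mul_mem (Subgroup.mem_sup_left (hcomm x⁻¹ (inv_mem hxL) z (hle hz))) hz

theorem main [Group.FG M] [A.Normal] (hQ : Group.IsNilpotent (M ⧸ A))
    (hu : ∀ x : M, ∀ a ∈ A, ∃ n : ℕ, 0 < n ∧ ∃ m : ℕ, it (x ^ n) a m = 1) :
    ∃ K : Subgroup M, K.FiniteIndex ∧ Group.IsNilpotent K := by
  classical
  obtain ⟨d, hd⟩ := Subgroup.nilpotent_iff_lowerCentralSeries.1 hQ
  set π : M →* M ⧸ A := QuotientGroup.mk' A with hπ
  have hker : ∀ x : M, π x = 1 ↔ x ∈ A := fun x => QuotientGroup.eq_one_iff x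
  -- orbits
  have hit : ∀ x y : M, ∀ i, π (it x y i) ∈ (⊤ : Subgroup (M ⧸ A)).lowerCentralSeries i := by
    intro x y i
    induction i with
    | zero => trivial
    | succ i ih =>
      have e : π (it x y (i + 1)) = ⁅π x, π (it x y i)⁆ := by
        rw [it, map_mul, map_mul, map_mul, map_inv, map_inv, commutatorElement_def]
      rw [e, Subgroup.lowerCentralSeries_succ, Subgroup.commutator_comm]
      exact Subgroup.commutator_mem_commutator (Subgroup.mem_top _) ih
  have hcyc : ∀ x y : M, (cyc x y).FG := by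
    intro x y
    apply cyc_fg_of_it x d
    have hA : it x y d ∈ A := by
      rw [← hker]
      have := hit x y d
      rw [hd, Subgroup.mem_bot] at this
      exact this
    obtain ⟨n, hn, m, hm⟩ := hu x _ hA
    exact cyc_fg_of_pow x _ n hn m hm
  -- the derived series of the quotient
  have hsol : ∃ c, derivedSeries (M ⧸ A) c = ⊥ := by
    refine ⟨d, ?_⟩
    rw [eq_bot_iff, ← hd]
    exact Subgroup.derived_le_lower_central d
  obtain ⟨c, hc⟩ := hsol
  let R : ℕ → Subgroup M := fun i => (derivedSeries (M ⧸ A) i).comap π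
  have hRcomm : ∀ i, ∀ a ∈ R i, ∀ b ∈ R i, a * b * a⁻¹ * b⁻¹ ∈ R (i + 1) := by
    intro i a ha b hb
    change π (a * b * a⁻¹ * b⁻¹) ∈ derivedSeries (M ⧸ A) (i + 1)
    rw [map_mul, map_mul, map_mul, map_inv, map_inv, derivedSeries_succ]
    exact Subgroup.commutator_mem_commutator ha hb
  have hRle : ∀ i, R (i + 1) ≤ R i := fun i =>
    Subgroup.comap_mono (derivedSeries_antitone _ (Nat.le_succ i))
  have hRfg : ∀ i, (R i).FG := by
    intro i
    induction i with
    | zero =>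
      have : R 0 = ⊤ := by
        change (derivedSeries (M ⧸ A) 0).comap π = ⊤
        rw [derivedSeries_zero, Subgroup.comap_top]
      rw [this]
      exact (Group.fg_def).1 inferInstance
    | succ i ih =>
      obtain ⟨S, hS⟩ := ih
      refine chain_fg (R (i + 1)) S (R i) ?_ (hRcomm i) ⟨S, hS⟩ (fun x _ y _ => hcyc x y)
      rw [hS]
      exact (sup_eq_right.2 (hRle i)).symm
  have hRA : R c = A := by
    change (derivedSeries (M ⧸ A) c).comap π = A
    rw [hc]
    ext x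
    rw [Subgroup.mem_comap, Subgroup.mem_bot, hker]
  have hAfg : A.FG := hRA ▸ hRfg c
  have hV : Module.Finite ℤ V := D.finite_of_fg hAfg
  have hq : ∀ x v, ∃ n : ℕ, 0 < n ∧ ∃ m : ℕ, (((D.ρ x) ^ n - 1) ^ m) v = 0 := by
    intro x v
    obtain ⟨n, hn, m, hm⟩ := hu x (D.κ v) ((D.mem _).2 ⟨v, rfl⟩)
    refine ⟨n, hn, m, ?_⟩
    rw [D.it_eq, ← D.zero] at hm
    have := D.inj hm
    rw [map_pow] at this
    exact this
  have hgood : ∀ j, j ≤ c → ∃ K : Subgroup M, K.relIndex (R (c - j)) ≠ 0 ∧ Unip D.ρ K := by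
    intro j
    induction j with
    | zero =>
      intro _
      refine ⟨A, ?_, 1, ?_⟩
      · rw [Nat.sub_zero, hRA, Subgroup.relIndex_self]
        exact one_ne_zero
      · rw [eq_top_iff]
        intro v _ a ha
        change D.ρ a v - v ∈ (⊥ : Submodule ℤ V)
        rw [Submodule.mem_bot, sub_eq_zero]
        apply D.inj
        rw [D.conj, D.comm ha ((D.mem _).2 ⟨v, rfl⟩)]
        group
    | succ j ih =>
      intro hj
      have e : c - j = (c - (j + 1)) + 1 := by omega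
      have h1 := ih (by omega)
      rw [e] at h1
      obtain ⟨S, hS⟩ := hRfg (c - (j + 1))
      have h2 := D.good_chain (hRfg (c - (j + 1) + 1)) hV (hRle _) (hRcomm _) hq h1 S
        (fun s hs => by rw [← hS]; exact Subgroup.subset_closure hs)
      rw [hS, sup_eq_right.2 (hRle _)] at h2
      exact h2
  obtain ⟨K, hK, s, hs⟩ := hgood c le_rfl
  have hR0 : R (c - c) = ⊤ := by
    rw [Nat.sub_self]
    change (derivedSeries (M ⧸ A) 0).comap π = ⊤
    rw [derivedSeries_zero, Subgroup.comap_top]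
  rw [hR0, Subgroup.relIndex_top_right] at hK
  refine ⟨K, ⟨hK⟩, ?_⟩
  rw [Subgroup.isNilpotent_iff_lowerCentralSeries]
  refine ⟨d + s, ?_⟩
  have h1 : K.lowerCentralSeries d ≤ A := by
    intro z hz
    rw [← hker]
    have h2 : π z ∈ (K.lowerCentralSeries d).map π := ⟨z, hz, rfl⟩
    rw [Subgroup.map_lowerCentralSeries] at h2
    have h3 : π z ∈ (⊤ : Subgroup (M ⧸ A)).lowerCentralSeries d :=
      Subgroup.lowerCentralSeries_mono d (le_top : K.map π ≤ ⊤) h2
    rw [hd, Subgroup.mem_bot] at h3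
    exact h3
  have h2 : ∀ j, j ≤ s → K.lowerCentralSeries (d + j) ≤ D.img (Fil D.ρ K (s - j)) := by
    intro j
    induction j with
    | zero =>
      intro _ z hz
      obtain ⟨v, hv⟩ := (D.mem z).1 (h1 hz)
      refine ⟨v, ?_, hv⟩
      rw [Nat.sub_zero, hs]
      trivial
    | succ j ih =>
      intro hj
      rw [← add_assoc, Subgroup.lowerCentralSeries_succ, Subgroup.commutator_le]
      intro a ha b hb
      obtain ⟨v, hv, rfl⟩ := ih (by omega) ha
      have e : s - j = (s - (j + 1)) + 1 := by omega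
      rw [e] at hv
      refine ⟨-(D.ρ b v - v), neg_mem (hv b hb), ?_⟩
      rw [D.neg, D.sub, D.conj, commutatorElement_def]
      group
  rw [eq_bot_iff]
  refine (h2 s le_rfl).trans ?_
  rintro _ ⟨v, hv, rfl⟩
  rw [Nat.sub_self] at hv
  have : v = 0 := hv
  rw [this, D.zero]
  exact one_mem _

end Model

end Pool.Agent.KS6_76.SSPN
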